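import Pool.Agent.Mg.Fc7a479.Ga95bd4
import Pool.Agent.Mg.Fc7a479.Gf55335

namespace Pool.Agent.Results.MP_c7a479_co.LargeDimension

open Pool.Agent.MP_c7a479_co

theorem result (m n : ℕ) (hn : 3 ≤ n) (hm : n ≤ m) : PiEq m n (m + 1) := by
  refine ⟨?_, fun _ hk => HasVarSet.le_of_large hk (by omega) hm⟩
  by_cases h6 : n = 6
  · subst h6
    exact hasVarSet_six (by omega)
  · exact hasVarSet_succ (by omega) hn h6

end Pool.Agent.Results.MP_c7a479_co.LargeDimension
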