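import Pool.Agent.Mg.Fc7a479a.Gf68dd8

namespace Pool.Agent.Results.MP_c7a479_co.MolsExponent

open Pool.Agent.MP_c7a479_co

/-- For all large `n` there are at least `n ^ (5 / 28) = n ^ (1 / 5.6)` mutually orthogonal latin
squares of order `n`, that is `π_2(n) ≥ n ^ (5 / 28)`. -/
theorem result :
    ∃ n₀ : ℕ, ∀ n : ℕ, n₀ ≤ n → ∃ k : ℕ, (n : ℝ) ^ (5 / 28 : ℝ) ≤ k ∧ HasVarSet 2 n k :=
  Ex.final_exp

end Pool.Agent.Results.MP_c7a479_co.MolsExponent
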