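import Pool.Agent.Mg.Fc7a479.G16021d
import Pool.Agent.Mg.Fc7a479.G1ad796

namespace Pool.Agent.Results.MP_c7a479_co.PolyLower

open Pool.Agent.MP_c7a479_co

/-- For every dimension `m` there is `c > 0` such that `π_m(n) ≥ n ^ c` for all large `n`. -/
theorem result (m : ℕ) (hm : 2 ≤ m) :
    ∃ c : ℝ, 0 < c ∧ ∃ n₀ : ℕ, ∀ n : ℕ, n₀ ≤ n → ∃ k : ℕ, (n : ℝ) ^ c ≤ k ∧ HasVarSet m n k :=
  final_of_univ univ_theorem m (by omega)

end Pool.Agent.Results.MP_c7a479_co.PolyLower
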