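import Pool.Agent.Mg.Fc7a479a.Gf3cef4

namespace Pool.Agent.Results.MP_c7a479_co.SquarePlus

open Pool.Agent.MP_c7a479_co

/-- `k` mutually orthogonal latin squares of order `q ^ 2 t + (q - 1) a + q b`, `q = p ^ e`.
The case `e = t = b = 1`, `a = 0`, `k = p - 1` is `π_2(p ^ 2 + p) ≥ p - 1` for odd primes `p`. -/
theorem result (k p e t a b : ℕ) (hp : p.Prime) (he : e ≠ 0) (h0 : 0 < a + b) (hab : a + b ≤ t)
    (hk : k + 1 ≤ p ^ e) (ha : a ≠ 0 → k + 3 ≤ p ^ e) (hb : b ≠ 0 → p ≠ 2 ∧ k ≤ p)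
    (ht : ∀ r : ℕ, r.Prime → r ∣ t → k + 2 ≤ r ^ t.factorization r)
    (hu : ∀ r : ℕ, r.Prime → r ∣ (p ^ e - 1) * a + p ^ e * b →
      k + 1 ≤ r ^ ((p ^ e - 1) * a + p ^ e * b).factorization r) :
    HasVarSet 2 ((p ^ e) ^ 2 * t + ((p ^ e - 1) * a + p ^ e * b)) k :=
  Ex.square_plus hp he hk ha hb h0 hab ht hu

end Pool.Agent.Results.MP_c7a479_co.SquarePlus
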